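import Mathlib

set_option autoImplicit false

namespace Pool.Agent.Results.MP_9df12e_lc.Yes

open Set Filter Topology Function TopologicalSpace Metric

/-- `X` is an `S₁(Γ₁, Γ)`-space -/
def S1 (X : Set ℝ) : Prop :=
  ∀ V : ℕ → ℕ → Set X, (∀ n m, IsOpen (V n m)) → (∀ x n, {m | x ∉ V n m}.encard ≤ 1) →
    ∃ d : ℕ → ℕ, ∀ x, ∀ᶠ n in atTop, x ∈ V n (d n)

theorem disj {P O : Set ℝ} (hP : Perfect P) (hO : IsOpen O) : ∃ p ε : ℕ → ℝ,
    (∀ i j x, x ∈ P → x ∈ closedBall (p i) (ε i) → x ∈ closedBall (p j) (ε j) → i = j) ∧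
    ((O ∩ P).Nonempty → ∀ j, p j ∈ O ∩ P ∧ 0 < ε j) := by
  rcases (O ∩ P).eq_empty_or_nonempty with h | ⟨x, hx⟩
  · exact ⟨0, fun _ => -1, fun i j x _ h => by simp at h, fun h' => (h'.ne_empty h).elim⟩
  have := (Set.Infinite.of_accPt ((hP.acc x hx.2).nhds_inter (hO.mem_nhds hx.1))).to_subtype
  obtain ⟨U, u1, u2, u3⟩ := exists_seq_infinite_isOpen_pairwise_disjoint ↥(O ∩ P)
  choose p hp using fun j => (u1 j).nonempty
  choose W w1 w2 using fun j => isOpen_induced_iff.1 (u2 j)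
  have h3 : ∀ j, W j ∩ O ∈ 𝓝 (p j : ℝ) := fun j => ((w1 j).inter hO).mem_nhds
    ⟨show p j ∈ (↑) ⁻¹' W j from (w2 j).symm ▸ hp j, (p j).2.1⟩
  choose ε e1 e2 using fun j => nhds_basis_closedBall.mem_iff.1 (h3 j)
  refine ⟨fun j => p j, ε, fun i j x h1 h2 h3 => by_contra fun h => Set.disjoint_left.1 (u3 h)
    (show ⟨x, (e2 i h2).2, h1⟩ ∈ U i from w2 i ▸ (e2 i h2).1) (w2 j ▸ (e2 j h3).1),
    fun _ j => ⟨(p j).2, e1 j⟩⟩

theorem result (X : Set ℝ) (h : S1 X) (P : Set ℝ) (hP : Perfect P) :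
    IsMeagre ((↑) ⁻¹' X : Set P) := by
  obtain ⟨B, hB⟩ := (countable_countableBasis ℝ).exists_eq_range
    (((isBasis_countableBasis ℝ).exists_subset_of_mem_open (mem_univ 0) isOpen_univ).imp
      fun _ h => h.1)
  choose p ε h1 h2 using fun n : ℕ => disj hP (isOpen_of_mem_countableBasis
    (hB ▸ mem_range_self n.unpair.1))
  obtain ⟨d, hd⟩ := h (fun n m => (↑) ⁻¹' (P ∩ closedBall (p n m) (ε n m))ᶜ)
    (fun n m => (hP.closed.inter isClosed_closedBall).isOpen_compl.preimage continuous_subtype_val)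
    fun x n => encard_le_one_iff.2 fun i j hi hj =>
      h1 n i j x (not_not.1 hi).1 (not_not.1 hi).2 (not_not.1 hj).2
  have : ∀ᶠ y in residual P, ∀ N, y ∈ ⋃ n ≥ N, ((↑) ⁻¹' ball (p n (d n)) (ε n (d n)) : Set P) :=
    eventually_countable_forall.2 fun N => residual_of_dense_open (isOpen_biUnion fun _ _ =>
      isOpen_ball.preimage continuous_subtype_val) (dense_iff_inter_open.2 fun U hU ⟨y, hy⟩ => by
        obtain ⟨W, w1, rfl⟩ := isOpen_induced_iff.1 hU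
        obtain ⟨_, b1, b2, b3⟩ := (isBasis_countableBasis ℝ).exists_subset_of_mem_open hy w1
        obtain ⟨i, rfl⟩ : _ ∈ range B := hB ▸ b1
        obtain ⟨h3, h4⟩ := h2 (Nat.pair i N) ⟨y, by simpa using b2, y.2⟩ (d _)
        exact ⟨⟨_, h3.2⟩, b3 (by simpa using h3.1), mem_biUnion (Nat.right_le_pair i N)
          (mem_ball_self h4)⟩)
  filter_upwards [this] with y hy hx
  obtain ⟨N, hN⟩ := eventually_atTop.1 (hd ⟨y, hx⟩)
  obtain ⟨n, n1, n2⟩ := mem_iUnion₂.1 (hy N)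
  exact hN n n1 ⟨y.2, ball_subset_closedBall n2⟩

end Pool.Agent.Results.MP_9df12e_lc.Yes
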